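import Pool.Agent.Y156.W.Main

/-!
# `μ`-invariants of totally real fields: fields of degree prime to `p`

The conjecture that `μ_p (E) = 0` for all totally real number fields `E` and all odd primes `p` is equivalent
to its restriction to the totally real fields whose degree over `ℚ` is not divisible by `p`; for each choice
of a totally real number field `M p`, it is also equivalent to its restriction to the totally real fields `E`
that contain `M p` and whose degree over `M p` is not divisible by `p` (for instance, `M p` the maximal
real subfield of `ℚ(μ_p)`).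

The vanishing of the `μ`-invariants is given by its known properties (`IsMu`).
-/

set_option autoImplicit false

namespace Pool.Agent.Results.MP_4e64b4_nt.DegreePrimeToP

open Pool.Agent.Y156.W

/-- The reduction to the totally real fields of degree prime to `p`. -/
theorem result {Ω : Type} [Field Ω] [Algebra ℚ Ω] [IsAlgClosure ℚ Ω]
    (totallyReal : IntermediateField ℚ Ω → Prop) (hreal : IsClass totallyReal)
    (mu0 : ℕ → IntermediateField ℚ Ω → Prop)
    (hmu : ∀ p : ℕ, p.Prime → p ≠ 2 → IsMu p totallyReal (fun _ => True) (mu0 p))
    (M : ℕ → IntermediateField ℚ Ω) (hM : ∀ p, FiniteDimensional ℚ (M p))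
    (hMreal : ∀ p, totallyReal (M p)) :
    (∀ p : ℕ, p.Prime → p ≠ 2 → ∀ E : IntermediateField ℚ Ω, FiniteDimensional ℚ E →
      totallyReal E → mu0 p E) ↔
      ∀ p : ℕ, p.Prime → p ≠ 2 → ∀ E : IntermediateField ℚ Ω, PrimeTo p (M p) E →
        totallyReal E → mu0 p E :=
  ⟨fun h p hp hp2 => (reduction hp hreal (hmu p hp hp2) (hM p) (hMreal p) trivial).1 (h p hp hp2),
    fun h p hp hp2 => (reduction hp hreal (hmu p hp hp2) (hM p) (hMreal p) trivial).2 (h p hp hp2)⟩

end Pool.Agent.Results.MP_4e64b4_nt.DegreePrimeToP
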