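import Pool.Agent.Y194.MU.ST

/-!
# Double towers: the normalised `μ`-types converge to the distribution of the exponents in the big tower

Let `p` be an odd prime, `K` a totally real number field, `Σ` a finite set of places containing those above `p` and `∞`,
`E_n` the layers of `K^cyc`, and `K = L_0 ⊆ L_1 ⊆ …` a tower of totally real fields, linearly disjoint from `K^cyc`, with
`L_{r+1}/L_r` Galois of `p`-power degree and unramified outside `Σ`. Put `F_{r,n} = L_r E_n`, let `⨁_i Λ/p^{m_i(r)}` be the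
`μ`-part of `X_Σ(L_r)` and `X_Σ(F_{r,n})_fin ≅ ℤ_p^a × ∏ ℤ/p^{v_i}`, `a = a(r,n)`, `v_i = v_i(r,n)`, the Galois group of the maximal abelian
pro-`p` extension of `F_{r,n}` unramified outside `Σ`. For fixed `r` the structure theory of `Λ`-modules gives

  `#{i : v_i(r,n) = j} / [F_{r,n} : K] → #{i : m_i(r) = j} / [L_r : K]`   for `n → ∞`,  `j ≥ 1`,

and Q1 asserts that these limits are `0`. For fixed `n` and `r → ∞` there is no structure theory.

Theorem. For every `j ≥ 1` the limits of `#{i : v_i(r,n) = j} / [F_{r,n} : K]` for `n → ∞`, for `r → ∞`, both the iterated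
limits, and the limit for `(r,n) → (∞,∞)` exist, and the last three agree. The same holds for
`(a(r,n) + #{i : v_i(r,n) ≥ j}) / [F_{r,n} : K]` and for the weights
`(a(r,n) (1 - p^{-j}) + ∑_i (1 - p^{-min(j, v_i(r,n))})) / [F_{r,n} : K]`, for all `j`.

So the normalised `μ`-types of the fields `L_r` converge, and their limit is the distribution of the exponents in the whole
tower `⋃ F_{r,n}`; it can be computed in any order, for instance first for the tower `L_r` (no cyclotomic extension
involved) and then along the cyclotomic direction.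

The theorem holds for arbitrary double towers `F_{r,n}` of number fields with steps of `p`-power degree which are
unramified outside `S` and completely split above `T` (any sets of primes `S`, `T`).
-/

set_option autoImplicit false

open IsDedekindDomain NumberField Filter Topology Pool.Agent.Y194.TS Pool.Agent.Y194.MU

namespace Pool.Agent.Results.MP_4e64b4_nt.DoubleTowers

section

variable {K Ω : Type} [Field K] [Field Ω] [Algebra K Ω]

/-- `L'/L` is a Galois extension of `p`-power degree, unramified outside `S`, in which the places above `T` (not above `S`)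
split completely -/
structure Step (p : ℕ) (S T : Set (HeightOneSpectrum (𝓞 K)))
    (L L' : IntermediateField K Ω) : Prop where
  le : L ≤ L'
  galois : (L'.fixingSubgroup.subgroupOf L.fixingSubgroup).Normal
  degree : ∃ m, Module.finrank K L' = p ^ m * Module.finrank K L
  unram : ∀ σ ∈ UST Ω S T, σ ∈ L.fixingSubgroup → σ ∈ L'.fixingSubgroup

/-- a double tower of number fields -/
structure DoubleTower (p : ℕ) (S T : Set (HeightOneSpectrum (𝓞 K)))
    (F : ℕ → ℕ → IntermediateField K Ω) : Prop where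
  finite : ∀ r n, FiniteDimensional K (F r n)
  right : ∀ r n, Step p S T (F r n) (F r (n + 1))
  up : ∀ r n, Step p S T (F r n) (F (r + 1) n)

/-- the homomorphisms `Gal(Ω/F) → ℤ/p^k` killing the local groups are `p^{a k + ∑ min(k, v_i)}` in number, for all
`k` -/
def HasExponents (p : ℕ) (S T : Set (HeightOneSpectrum (𝓞 K))) (F : IntermediateField K Ω)
    (a : ℕ) (v : Multiset ℕ) : Prop :=
  ∀ k, Finite (SChars S T F.fixingSubgroup (p ^ k)) ∧
    Nat.card (SChars S T F.fixingSubgroup (p ^ k)) = p ^ (a * k + (v.map (fun i => min k i)).sum)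

end

/-- the limits for `n → ∞` and for `r → ∞` exist, the iterated limits and the double limit exist and agree -/
def LimitsAgree (g : ℕ → ℕ → ℝ) : Prop :=
  ∃ (l : ℝ) (x y : ℕ → ℝ), (∀ r, Tendsto (fun n => g r n) atTop (𝓝 (x r))) ∧
    (∀ n, Tendsto (fun r => g r n) atTop (𝓝 (y n))) ∧ Tendsto x atTop (𝓝 l) ∧
    Tendsto y atTop (𝓝 l) ∧ Tendsto (fun q : ℕ × ℕ => g q.1 q.2) atTop (𝓝 l)

lemma rows {f : ℕ × ℕ → ℝ} {l : ℝ} {x : ℕ → ℝ} (hf : Tendsto f atTop (𝓝 l))
    (hx : ∀ r, Tendsto (fun n => f (r, n)) atTop (𝓝 (x r))) : Tendsto x atTop (𝓝 l) := by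
  rw [Metric.tendsto_atTop]
  intro ε hε
  obtain ⟨⟨N1, N2⟩, hN⟩ := Metric.tendsto_atTop.1 hf (ε / 2) (half_pos hε)
  refine ⟨N1, fun r hr => ?_⟩
  have h : dist (x r) l ≤ ε / 2 := le_of_tendsto ((hx r).dist tendsto_const_nhds)
    (eventually_atTop.2 ⟨N2, fun n hn => (hN (r, n) ⟨hr, hn⟩).le⟩)
  linarith

lemma cols {f : ℕ × ℕ → ℝ} {l : ℝ} {y : ℕ → ℝ} (hf : Tendsto f atTop (𝓝 l))
    (hy : ∀ n, Tendsto (fun r => f (r, n)) atTop (𝓝 (y n))) : Tendsto y atTop (𝓝 l) := by
  rw [Metric.tendsto_atTop]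
  intro ε hε
  obtain ⟨⟨N1, N2⟩, hN⟩ := Metric.tendsto_atTop.1 hf (ε / 2) (half_pos hε)
  refine ⟨N2, fun n hn => ?_⟩
  have h : dist (y n) l ≤ ε / 2 := le_of_tendsto ((hy n).dist tendsto_const_nhds)
    (eventually_atTop.2 ⟨N1, fun r hr => (hN (r, n) ⟨hr, hn⟩).le⟩)
  linarith

lemma agree_of_anti {g : ℕ → ℕ → ℝ} (h0 : ∀ r n, 0 ≤ g r n) (h1 : ∀ r, Antitone (g r))
    (h2 : ∀ n, Antitone fun r => g r n) : LimitsAgree g := by
  have ha : Antitone fun q : ℕ × ℕ => g q.1 q.2 := fun q q' h =>
    (h1 q'.1 h.2).trans (h2 q.2 h.1)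
  have e1 := tendsto_atTop_ciInf ha ⟨0, by rintro _ ⟨q, rfl⟩; exact h0 _ _⟩
  have e2 : ∀ r, ∃ x, Tendsto (fun n => g r n) atTop (𝓝 x) := fun r =>
    ⟨_, tendsto_atTop_ciInf (h1 r) ⟨0, by rintro _ ⟨q, rfl⟩; exact h0 _ _⟩⟩
  have e3 : ∀ n, ∃ y, Tendsto (fun r => g r n) atTop (𝓝 y) := fun n =>
    ⟨_, tendsto_atTop_ciInf (h2 n) ⟨0, by rintro _ ⟨q, rfl⟩; exact h0 _ _⟩⟩
  choose x hx using e2
  choose y hy using e3
  exact ⟨_, x, y, hx, hy, rows e1 hx, cols e1 hy, e1⟩

lemma agree_comb {g h : ℕ → ℕ → ℝ} (c : ℝ) (hg : LimitsAgree g) (hh : LimitsAgree h) :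
    LimitsAgree fun r n => c * (g r n - h r n) := by
  obtain ⟨l, x, y, g1, g2, g3, g4, g5⟩ := hg
  obtain ⟨l', x', y', h1, h2, h3, h4, h5⟩ := hh
  exact ⟨c * (l - l'), fun r => c * (x r - x' r), fun n => c * (y n - y' n),
    fun r => ((g1 r).sub (h1 r)).const_mul c, fun n => ((g2 n).sub (h2 n)).const_mul c,
    (g3.sub h3).const_mul c, (g4.sub h4).const_mul c, (g5.sub h5).const_mul c⟩

/-- all the limits exist and agree, for the weights and for the distribution of the exponents -/
theorem result {K Ω : Type} [Field K] [NumberField K] [Field Ω] [Algebra K Ω] [IsAlgClosure K Ω]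
    {p : ℕ} [Fact p.Prime] {S T : Set (HeightOneSpectrum (𝓞 K))}
    {F : ℕ → ℕ → IntermediateField K Ω} (hF : DoubleTower p S T F)
    {a : ℕ → ℕ → ℕ} {v : ℕ → ℕ → Multiset ℕ}
    (hv : ∀ r n, HasExponents p S T (F r n) (a r n) (v r n)) :
    (∀ j, LimitsAgree fun r n => trunc p j (a r n) (v r n) / Module.finrank K (F r n)) ∧
    ∀ j, 1 ≤ j →
      (LimitsAgree fun r n => ((a r n : ℝ) + (Multiset.countP (fun i => j ≤ i) (v r n) : ℕ)) /
        Module.finrank K (F r n)) ∧
      LimitsAgree fun r n => (Multiset.count j (v r n) : ℝ) / Module.finrank K (F r n) := by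
  have hgal : IsGalois K Ω := IsAlgClosure.isGalois K Ω
  have hp2 : (2 : ℝ) ≤ p := by exact_mod_cast (Fact.out : p.Prime).two_le
  have hinv : (p : ℝ)⁻¹ < 1 := inv_lt_one_of_one_lt₀ (by linarith)
  have hinv0 : (0 : ℝ) ≤ (p : ℝ)⁻¹ := by positivity
  have hp0 : ((p : ℝ)⁻¹) ≠ 0 := inv_ne_zero (by linarith)
  have step : ∀ {L L' : IntermediateField K Ω} {a a' : ℕ} {v v' : Multiset ℕ},
      FiniteDimensional K L → FiniteDimensional K L' → Step p S T L L' →
      HasExponents p S T L a v → HasExponents p S T L' a' v' → ∀ j,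
      trunc p j a' v' / Module.finrank K L' ≤ trunc p j a v / Module.finrank K L := by
    intro L L' a a' v v' i0 i1 hs hv hv' j
    obtain ⟨m, hm⟩ := hs.degree
    have hfew : FewST S T L.fixingSubgroup L'.fixingSubgroup 0 := by
      refine ⟨∅, le_rfl, ?_⟩
      rintro V ⟨σ, h1, h2, h3⟩
      exact absurd (hs.unram σ ⟨V, h1⟩ h2) h3
    have h := (pairST (p := p) S T hs.le hs.galois hm hfew hv hv').1 j
    rw [Nat.cast_zero, zero_mul, zero_mul, add_zero] at h
    have hpL : (0 : ℝ) < Module.finrank K L := by exact_mod_cast Module.finrank_pos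
    have hpL' : (0 : ℝ) < Module.finrank K L' := by exact_mod_cast Module.finrank_pos
    have hD : (Module.finrank K L' : ℝ) = (p : ℝ) ^ m * Module.finrank K L := by
      exact_mod_cast hm
    have h3 : 0 ≤ ((p : ℝ) ^ m - 1) * (1 - ((p : ℝ)⁻¹) ^ j) := by
      refine mul_nonneg ?_ ?_
      · have : (1 : ℝ) ≤ (p : ℝ) ^ m := one_le_pow₀ (by linarith)
        linarith
      · have := pow_le_one₀ (n := j) hinv0 hinv.le
        linarith
    rw [div_le_div_iff₀ hpL' hpL, hD]
    calc trunc p j a' v' * Module.finrank K L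
        ≤ ((p : ℝ) ^ m * trunc p j a v) * Module.finrank K L :=
          mul_le_mul_of_nonneg_right (by linarith) hpL.le
      _ = _ := by ring
  have hT : ∀ j, LimitsAgree fun r n =>
      trunc p j (a r n) (v r n) / Module.finrank K (F r n) := by
    intro j
    refine agree_of_anti (fun r n => div_nonneg (trunc_nonneg _ _ _) (Nat.cast_nonneg _))
      (fun r => antitone_nat_of_succ_le fun n => ?_)
      (fun n => antitone_nat_of_succ_le fun r => ?_)
    · exact step (hF.finite _ _) (hF.finite _ _) (hF.right r n) (hv _ _) (hv _ _) j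
    · exact step (hF.finite _ _) (hF.finite _ _) (hF.up r n) (hv _ _) (hv _ _) j
  have hC : ∀ j, LimitsAgree fun r n => ((a r n : ℝ) +
      (Multiset.countP (fun i => j < i) (v r n) : ℕ)) / Module.finrank K (F r n) := by
    intro j
    have h := agree_comb (((p : ℝ)⁻¹) ^ j * (1 - (p : ℝ)⁻¹))⁻¹ (hT (j + 1)) (hT j)
    have e : (fun r n => (((p : ℝ)⁻¹) ^ j * (1 - (p : ℝ)⁻¹))⁻¹ *
        (trunc p (j + 1) (a r n) (v r n) / Module.finrank K (F r n) -
          trunc p j (a r n) (v r n) / Module.finrank K (F r n))) =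
        fun r n => ((a r n : ℝ) + (Multiset.countP (fun i => j < i) (v r n) : ℕ)) /
          Module.finrank K (F r n) := by
      funext r n
      have hne : ((p : ℝ)⁻¹) ^ j * (1 - (p : ℝ)⁻¹) ≠ 0 :=
        mul_ne_zero (pow_ne_zero _ hp0) (by linarith)
      rw [← sub_div, trunc_diff, ← mul_div_assoc, inv_mul_cancel_left₀ hne]
    rwa [e] at h
  refine ⟨hT, fun j hj => ?_⟩
  obtain ⟨j, rfl⟩ := Nat.exists_eq_add_of_le' hj
  refine ⟨hC j, ?_⟩
  have h := agree_comb 1 (hC j) (hC (j + 1))
  have e : (fun r n => (1 : ℝ) *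
      (((a r n : ℝ) + (Multiset.countP (fun i => j < i) (v r n) : ℕ)) / Module.finrank K (F r n) -
        ((a r n : ℝ) + (Multiset.countP (fun i => j + 1 < i) (v r n) : ℕ)) /
          Module.finrank K (F r n))) =
      fun r n => (Multiset.count (j + 1) (v r n) : ℝ) / Module.finrank K (F r n) := by
    funext r n
    rw [one_mul, ← sub_div, count_eq j (v r n)]
    congr 1
    push_cast
    ring
  rwa [e] at h

end Pool.Agent.Results.MP_4e64b4_nt.DoubleTowers
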