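import Pool.Agent.Y194.MU.Fld

/-!
# The `μ`-types of totally real fields in towers of `p`-extensions

Let `p` be an odd prime, `K` a totally real number field (e.g. `ℚ`), `K^cyc = ⋃ E_n` its cyclotomic `ℤ_p`-extension, `Σ`
a finite set of places containing those above `p` and `∞`. Let

  `L_0 ⊆ L_1 ⊆ L_2 ⊆ …`

be totally real extensions of `K`, linearly disjoint from `K^cyc`, such that each `L_{r+1}/L_r` is a Galois extension of
`p`-power degree, unramified outside `Σ`. Let `⨁_i Λ/p^{m_i(r)}` be the `μ`-part of the Iwasawa module `X_Σ(L_r)`, the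
Galois group of the maximal abelian pro-`p` extension of `L_r^cyc` unramified outside `Σ`; Q1 asserts that there
are no `m_i(r)`. Since the group of the homomorphisms `Gal(Ω/L_r E_n) → ℤ/p^k` unramified outside `Σ` is
dual to `X_Σ(L_r)/(p^k, γ^{p^n} - 1)` up to a group of order at most `p^k`, their number `N_r(n, k)` satisfies

  `log_p N_r(n, k) / p^n → ∑_i min(k, m_i(r))`   for all `k`

(for general number fields `L_r`: `→ a_r k + ∑_i min(k, m_i(r))`, `a_r = r_2(L_r)` the `Λ`-rank of `X_Σ(L_r)`).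

Theorem.

1. For each `j` the sequence `∑_i (1 - p^{-min(j, m_i(r))}) / [L_r : K]` does not increase with `r`; the same holds for
   `∑_i (1 - p^{-m_i(r)}) / [L_r : K]`.
2. For each `j ≥ 1` the number of the summands `Λ/p^j` of `X_Σ(L_r)`, divided by `[L_r : K]`, converges for `r → ∞`.

For `j = 1` the first assertion is Iwasawa's theorem on the permanence of `μ = 0` (in the form: the number of the
summands grows at most by the factor `[L_{r+1} : L_r]`). For `j > 1` it is a new restriction for hypothetical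
positive `μ`-invariants: `μ` itself need not satisfy such an inequality, only the weights `1 - p^{-min(j, m)}` do. By 2, in
an infinite pro-`p` tower of totally real fields the distribution of the exponents `m_i(r)` converges.

All the assertions are proved for arbitrary number fields and arbitrary towers `E_n` (with `a_r (1 - p^{-j})` added to
the sums); and `m_i` does not depend on `Σ`, which may contain the primes ramified in the `L_r`.
-/

set_option autoImplicit false

open IsDedekindDomain NumberField Filter Topology Pool.Agent.Y194.TS Pool.Agent.Y194.MU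

namespace Pool.Agent.Results.MP_4e64b4_nt.TypesInTowers

section

variable {K Ω : Type} [Field K] [Field Ω] [Algebra K Ω]

/-- a tower of Galois extensions `L_{r+1}/L_r` of `p`-power degree, unramified outside `S`, linearly disjoint from the
fields `E_n` -/
structure Tower (p : ℕ) (S : Set (HeightOneSpectrum (𝓞 K)))
    (L E : ℕ → IntermediateField K Ω) : Prop where
  finite : ∀ r, FiniteDimensional K (L r)
  le : ∀ r, L r ≤ L (r + 1)
  galois : ∀ r, ((L (r + 1)).fixingSubgroup.subgroupOf (L r).fixingSubgroup).Normal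
  degree : ∀ r, ∃ e, Module.finrank K (L (r + 1)) = p ^ e * Module.finrank K (L r)
  unram : ∀ r, ∀ σ ∈ Inertia Ω S, σ ∈ (L r).fixingSubgroup → σ ∈ (L (r + 1)).fixingSubgroup
  finiteE : ∀ n, FiniteDimensional K (E n)
  disjoint : ∀ r n, Module.finrank K (L r ⊔ E n : IntermediateField K Ω) =
    Module.finrank K (L r) * Module.finrank K (E n)

/-- the homomorphisms `U → ℤ/q` which are locally constant and kill the inertia groups outside `S` -/
abbrev Chars (S : Set (HeightOneSpectrum (𝓞 K))) (U : Subgroup (Ω ≃ₐ[K] Ω)) (q : ℕ) : Type :=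
  {f : U → ZMod q // Char {σ : U | (σ : Ω ≃ₐ[K] Ω) ∈ Inertia Ω S} f}

/-- the number `N(n, k)` of these homomorphisms to `ℤ/p^k` for `U = Gal(Ω/F E_n)` is finite and
`log_p N(n, k) / [E_n : K]` converges to `a k + ∑ min(k, v_i)` for all `k` -/
def TypeAt (p : ℕ) (S : Set (HeightOneSpectrum (𝓞 K))) (E : ℕ → IntermediateField K Ω)
    (F : IntermediateField K Ω) (a : ℕ) (v : Multiset ℕ) : Prop :=
  (∀ n k, Finite (Chars S (F ⊔ E n).fixingSubgroup (p ^ k))) ∧
    Density p (fun n => Module.finrank K (E n))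
      (fun n k => Nat.card (Chars S (F ⊔ E n).fixingSubgroup (p ^ k))) a v

end

theorem result {K Ω : Type} [Field K] [NumberField K] [Field Ω] [Algebra K Ω] [IsAlgClosure K Ω]
    {p : ℕ} [Fact p.Prime] {S : Set (HeightOneSpectrum (𝓞 K))}
    {L E : ℕ → IntermediateField K Ω} (hL : Tower p S L E) {a : ℕ → ℕ} {v : ℕ → Multiset ℕ}
    (hv : ∀ r, TypeAt p S E (L r) (a r) (v r)) :
    (∀ j, Antitone fun r => trunc p j (a r) (v r) / Module.finrank K (L r)) ∧
    (Antitone fun r => full p (a r) (v r) / Module.finrank K (L r)) ∧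
    ∀ j, 1 ≤ j → ∃ l : ℝ,
      Tendsto (fun r => (Multiset.count j (v r) : ℝ) / Module.finrank K (L r)) atTop (𝓝 l) := by
  have hgal : IsGalois K Ω := IsAlgClosure.isGalois K Ω
  have hone : ∀ (k : ℕ) (σ : Ω ≃ₐ[K] Ω), (((1 : (Ω ≃ₐ[K] Ω) →*
      Matrix.GeneralLinearGroup (Fin 1) ℤ_[p]) σ : Matrix.GeneralLinearGroup (Fin 1) ℤ_[p]) :
        Matrix (Fin 1) (Fin 1) ℤ_[p]).map (PadicInt.toZModPow k) = 1 := by
    intro k σ
    rw [MonoidHom.one_apply, Units.val_one, Matrix.map_one _ (map_zero _) (map_one _)]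
  have hcard : ∀ (U : Subgroup (Ω ≃ₐ[K] Ω)) (k : ℕ),
      Nat.card (Coc S (1 : (Ω ≃ₐ[K] Ω) →* Matrix.GeneralLinearGroup (Fin 1) ℤ_[p]) U k) =
        Nat.card (Chars S U (p ^ k)) := fun U k => card_char _ (fun σ => hone k _) _
  have hne : ∀ (r n k : ℕ), Nat.card (Coc S (1 : (Ω ≃ₐ[K] Ω) →*
      Matrix.GeneralLinearGroup (Fin 1) ℤ_[p]) (L r ⊔ E n).fixingSubgroup k) ≠ 0 := by
    intro r n k
    rw [hcard]
    have h1 := (hv r).1 n k
    have h2 : Nonempty (Chars S (L r ⊔ E n).fixingSubgroup (p ^ k)) :=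
      ⟨⟨0, fun x y => (add_zero (0 : ZMod (p ^ k))).symm, IsLocallyConstant.const 0,
        fun _ _ => rfl⟩⟩
    exact Nat.card_pos.ne'
  have hD : ∀ r, Density p (fun n => Module.finrank K (E n)) (fun n k => Nat.card (Coc S
      (1 : (Ω ≃ₐ[K] Ω) →* Matrix.GeneralLinearGroup (Fin 1) ℤ_[p])
        (L r ⊔ E n).fixingSubgroup k)) (a r) (v r) := by
    intro r k
    refine ((hv r).2 k).congr fun n => ?_
    simp only [hcard]
  have hpos : ∀ r, (0 : ℝ) < Module.finrank K (L r) := fun r => by
    have := hL.finite r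
    exact_mod_cast Module.finrank_pos
  have step : ∀ r, ∃ e, (Module.finrank K (L (r + 1)) : ℝ) = (p : ℝ) ^ e *
      Module.finrank K (L r) ∧ (∀ j, trunc p j (a (r + 1)) (v (r + 1)) ≤
        (p : ℝ) ^ e * trunc p j (a r) (v r)) ∧
      full p (a (r + 1)) (v (r + 1)) ≤ (p : ℝ) ^ e * full p (a r) (v r) := by
    intro r
    obtain ⟨e, he⟩ := hL.degree r
    have i1 := hL.finite (r + 1)
    refine ⟨e, by exact_mod_cast he, ?_⟩
    exact pair_main S 1 continuous_const (fun _ _ => rfl) (hL.le r) (hL.galois r) (hL.unram r) E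
      hL.finiteE (fun n => by rw [hL.disjoint, hL.disjoint, he, mul_assoc]) (hne (r + 1))
      (hD r) (hD (r + 1))
  have hj : ∀ j, Antitone fun r => trunc p j (a r) (v r) / Module.finrank K (L r) := by
    intro j
    refine antitone_nat_of_succ_le fun r => ?_
    obtain ⟨e, h1, h2, -⟩ := step r
    rw [div_le_div_iff₀ (hpos (r + 1)) (hpos r), h1]
    calc trunc p j (a (r + 1)) (v (r + 1)) * Module.finrank K (L r)
        ≤ ((p : ℝ) ^ e * trunc p j (a r) (v r)) * Module.finrank K (L r) :=
          mul_le_mul_of_nonneg_right (h2 j) (hpos r).le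
      _ = _ := by ring
  refine ⟨hj, ?_, fun j hj1 => ?_⟩
  · refine antitone_nat_of_succ_le fun r => ?_
    obtain ⟨e, h1, -, h2⟩ := step r
    rw [div_le_div_iff₀ (hpos (r + 1)) (hpos r), h1]
    calc full p (a (r + 1)) (v (r + 1)) * Module.finrank K (L r)
        ≤ ((p : ℝ) ^ e * full p (a r) (v r)) * Module.finrank K (L r) :=
          mul_le_mul_of_nonneg_right h2 (hpos r).le
      _ = _ := by ring
  · obtain ⟨j, rfl⟩ := Nat.exists_eq_add_of_le' hj1
    exact seq_conv hj j

end Pool.Agent.Results.MP_4e64b4_nt.TypesInTowers
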